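import Pool.Agent.H23.CM4.Targets
import Pool.Agent.H63.HK.DS

/-!
# MP_52e316_nt, board `cm4_modules`: rows DSM, SPJ, SPT
-/

set_option autoImplicit false

open NumberField MeasureTheory Set Filter Complex
open scoped nonZeroDivisors Real

namespace Pool.Agent.H52.CM4

open Pool.Agent.H23.CM4
open Pool.Agent.H31.CN (IsLf)
open Pool.Agent.H61.FM (CC pv Sp lm Nn mem_Nn)
open Pool.Agent.H65.CM4 (gG Kc Sq nm dg)
open Pool.Agent.H25.HK (FI Pri du)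

theorem norm_pv {K : Type} [Field K] [NumberField K] (ψ : CC K) (I : (Ideal (𝓞 K))⁰) :
    ‖pv ψ I‖ = 1 := by
  unfold pv
  set g := ClassGroup.mk0 I
  have h1 : (((ψ g : ℂˣ) : ℂ)) ^ Fintype.card (ClassGroup (𝓞 K)) = 1 := by
    rw [← Units.val_pow_eq_pow_val, ← map_pow, pow_card_eq_one, map_one, Units.val_one]
  exact Complex.norm_eq_one_of_pow_eq_one h1 Fintype.card_ne_zero

theorem one_le_nJ {K : Type} [Field K] [NumberField K] (J : (Ideal (𝓞 K))⁰) : 1 ≤ nJ J := by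
  unfold nJ
  exact_mod_cast Ideal.absNorm_pos_of_nonZeroDivisors J

theorem pf_DSM : T_DSM := by
  intro K _ _
  refine ⟨norm_pv, one_le_nJ, ?_⟩
  intro s hs
  have h := (Pool.Agent.H63.HK.ds K (s : ℂ) (by simpa using hs)).1
  let e : (Ideal (𝓞 K))⁰ ≃ {I : Ideal (𝓞 K) // I ≠ ⊥} :=
    Equiv.subtypeEquivRight fun I => mem_nonZeroDivisors_iff_ne_zero
  rw [← e.summable_iff] at h
  refine h.congr fun J => ?_
  have h1 : 0 < Ideal.absNorm (J : Ideal (𝓞 K)) := Ideal.absNorm_pos_of_nonZeroDivisors J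
  have h2 : (Ideal.absNorm ((e J).1 : Ideal (𝓞 K))) = Ideal.absNorm (J : Ideal (𝓞 K)) := rfl
  simp only [Function.comp]
  rw [h2, Complex.norm_natCast_cpow_of_pos h1]
  unfold nJ
  simp

open Classical in
/-- the ideals of norm up to `x` -/
noncomputable def Sx (K : Type) [Field K] [NumberField K] (x : ℝ) : Finset (Ideal (𝓞 K))⁰ :=
  (Finset.Icc 1 ⌊x⌋₊).biUnion (Nn K)

theorem mem_Sx {K : Type} [Field K] [NumberField K] {x : ℝ} {J : (Ideal (𝓞 K))⁰} :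
    J ∈ Sx K x ↔ nJ J ≤ x := by
  unfold Sx
  rw [Finset.mem_biUnion]
  have h1 : 0 < Ideal.absNorm (J : Ideal (𝓞 K)) := Ideal.absNorm_pos_of_nonZeroDivisors J
  constructor
  · rintro ⟨n, hn, hJ⟩
    have h2 : Ideal.absNorm (J : Ideal (𝓞 K)) = n := mem_Nn.1 hJ
    obtain ⟨h3, h4⟩ := Finset.mem_Icc.1 hn
    unfold nJ
    rw [h2]
    exact (Nat.le_floor_iff' (by omega)).1 h4
  · intro h
    refine ⟨Ideal.absNorm (J : Ideal (𝓞 K)), Finset.mem_Icc.2 ⟨h1, ?_⟩, mem_Nn.2 rfl⟩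
    exact (Nat.le_floor_iff' (by omega)).2 h

theorem Sp_eq {K : Type} [Field K] [NumberField K] (ψ : CC K) (x : ℝ) :
    Sp ψ x = ∑ J ∈ Sx K x, pv ψ J := by
  classical
  unfold Sp Sx
  rw [Finset.sum_biUnion]
  · rfl
  · intro n _ m _ hnm
    rw [Function.onFun, Finset.disjoint_left]
    intro J h1 h2
    apply hnm
    rw [← mem_Nn.1 h1, ← mem_Nn.1 h2]

theorem tsum_Sx {K : Type} [Field K] [NumberField K] (f : (Ideal (𝓞 K))⁰ → ℂ) (x : ℝ) :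
    ∑' J : {J : (Ideal (𝓞 K))⁰ // nJ J ≤ x}, f J = ∑ J ∈ Sx K x, f J := by
  have h1 : {J : (Ideal (𝓞 K))⁰ | nJ J ≤ x} = ((Sx K x : Finset (Ideal (𝓞 K))⁰) : Set _) := by
    ext J
    rw [Finset.mem_coe, mem_Sx]
    rfl
  have h2 : ∑' J : {J : (Ideal (𝓞 K))⁰ // nJ J ≤ x}, f J =
      ∑' J : ({J : (Ideal (𝓞 K))⁰ | nJ J ≤ x} : Set (Ideal (𝓞 K))⁰), f J := rfl
  rw [h2, h1]
  exact Finset.tsum_subtype' (Sx K x) f

theorem pf_SPJ : T_SPJ := by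
  intro K _ _ ψ x
  constructor
  · rw [tsum_Sx (fun J => pv ψ J), Sp_eq]
  · rw [tsum_Sx (fun J => (starRingEnd ℂ) (pv ψ J)), Sp_eq, map_sum]

theorem pf_SPT (hDSM : T_DSM) (hZKB : T_ZKB) : T_SPT := by
  intro m
  obtain ⟨C, hC, h⟩ := hZKB m
  refine ⟨C, hC, ?_⟩
  intro K _ _ hK ψ
  constructor
  · have h1 : Measurable fun n : ℕ => ∑ k ∈ Finset.Icc 1 n, lm ψ k := measurable_from_nat
    exact h1.comp Nat.measurable_floor
  · intro x hx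
    have hx0 : 0 < x := by linarith
    have hsum := (hDSM K).2.2 2 (by norm_num)
    have h1 : ∀ J ∈ Sx K x, (1 : ℝ) ≤ x ^ 2 * nJ J ^ (-(2 : ℝ)) := by
      intro J hJ
      have h2 := mem_Sx.1 hJ
      have h3 := one_le_nJ J
      have h0 : 0 < nJ J := by linarith
      rw [Real.rpow_neg h0.le, Real.rpow_two, ← div_eq_mul_inv, one_le_div (by positivity)]
      exact pow_le_pow_left₀ h0.le h2 2
    have h0 : ∀ J : (Ideal (𝓞 K))⁰, 0 ≤ nJ J ^ (-(2 : ℝ)) := fun J =>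
      Real.rpow_nonneg (by linarith [one_le_nJ J]) _
    calc ‖Sp ψ x‖ = ‖∑ J ∈ Sx K x, pv ψ J‖ := by rw [Sp_eq]
      _ ≤ ∑ J ∈ Sx K x, ‖pv ψ J‖ := norm_sum_le _ _
      _ = ∑ J ∈ Sx K x, (1 : ℝ) := Finset.sum_congr rfl fun J _ => norm_pv ψ J
      _ ≤ ∑ J ∈ Sx K x, x ^ 2 * nJ J ^ (-(2 : ℝ)) := Finset.sum_le_sum h1
      _ = x ^ 2 * ∑ J ∈ Sx K x, nJ J ^ (-(2 : ℝ)) := by rw [Finset.mul_sum]
      _ ≤ x ^ 2 * ∑' J : (Ideal (𝓞 K))⁰, nJ J ^ (-(2 : ℝ)) :=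
          mul_le_mul_of_nonneg_left (hsum.sum_le_tsum _ fun J _ => h0 J) (by positivity)
      _ ≤ x ^ 2 * C := mul_le_mul_of_nonneg_left (h K hK) (by positivity)
      _ = C * x ^ 2 := by ring

end Pool.Agent.H52.CM4
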