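import Pool.Agent.H52.CM4.SPJ

/-!
# MP_52e316_nt, board `cm4_modules`: row SPR
-/

set_option autoImplicit false

open NumberField MeasureTheory Set Filter Complex
open scoped nonZeroDivisors Real

namespace Pool.Agent.H52.CM4

open Pool.Agent.H23.CM4
open Pool.Agent.H61.FM (CC pv Sp lm Nn)
open Pool.Agent.H65.CM4 (gG Kc Sq nm dg)

theorem pf_SPR (hJDM : T_JDM) : T_SPR := by
  classical
  intro k _ _ K _ _ _ ψ x
  obtain ⟨hJd, -, -, -, hNr⟩ := hJDM k
  have hn : ∀ J : (Ideal (𝓞 K))⁰, nm (Ideal.relNorm (𝓞 k) (J : Ideal (𝓞 K))) = nJ J := by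
    intro J
    unfold nm nJ
    rw [Ideal.absNorm_relNorm]
  have hmaps : ∀ J ∈ Sx K x, Ideal.relNorm (𝓞 k) (J : Ideal (𝓞 K)) ∈ Jd k x := by
    intro J hJ
    rw [hJd]
    refine ⟨?_, ?_⟩
    · rw [Ne, Ideal.relNorm_eq_bot_iff]
      exact nonZeroDivisors.ne_zero J.2
    · rw [hn]; exact mem_Sx.1 hJ
  rw [Sp_eq, ← Finset.sum_fiberwise_of_maps_to hmaps]
  refine Finset.sum_congr rfl fun I hI => ?_
  unfold lr
  refine Finset.sum_congr ?_ fun _ _ => rfl
  ext J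
  rw [Finset.mem_filter, hNr K I J]
  constructor
  · exact fun h => h.2
  · intro h
    refine ⟨?_, h⟩
    rw [mem_Sx, ← hn, h]
    exact ((hJd x I).1 hI).2

end Pool.Agent.H52.CM4
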