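import Pool.Agent.H65.CM4.Targets1

/-!
# MP_52e316_nt, board `cm4_modules`: row NRD
-/

set_option autoImplicit false

open MeasureTheory Set Filter NumberField NumberField.InfinitePlace Pool.Agent.H65.CM4
open scoped Real

namespace Pool.Agent.H52.CM4

variable (k : Type) [Field k] [NumberField k] [IsTotallyReal k]

theorem pf_NRD (hEMB : T_EMB k) : T_NRD k := by
  intro r v w hr
  have hr0 : r ≠ 0 := hr.ne'
  obtain ⟨-, -, -, -, -, -, -, hunit, -⟩ := hEMB
  have hdet : ∀ p : Pl k, rv p (det v w : k) =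
      rv p (v.1 : k) * rv p (w.2 : k) - rv p (v.2 : k) * rv p (w.1 : k) := by
    intro p
    have h : ((det v w : 𝓞 k) : k) = (v.1 : k) * (w.2 : k) - (v.2 : k) * (w.1 : k) := by
      simp [det]
    rw [h, map_sub, map_mul, map_mul]
  have h1 : ∀ p : Pl k, rv p (det v w : k) ^ 2 ≤ nr r p v * nr r p w := by
    intro p
    rw [hdet p]
    unfold nr
    generalize rv p (v.1 : k) = a
    generalize rv p (v.2 : k) = b
    generalize rv p (w.1 : k) = c
    generalize rv p (w.2 : k) = d
    have h : (a ^ 2 / r + r * b ^ 2) * (c ^ 2 / r + r * d ^ 2) - (a * d - b * c) ^ 2 =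
        (a * c / r + r * b * d) ^ 2 := by
      field_simp
      ring
    nlinarith [sq_nonneg (a * c / r + r * b * d)]
  have hnn : ∀ (u : V2 k) (p : Pl k), 0 ≤ nr r p u := by
    intro u p; unfold nr; positivity
  have hnn' : ∀ u : V2 k, 0 ≤ nn r u := fun u => Finset.prod_nonneg fun p _ => hnn u p
  refine ⟨h1, ?_, ?_, ?_, ?_⟩
  · intro hv
    have hpos : ∀ p : Pl k, 0 < nr r p v := by
      intro p
      unfold nr
      have hinj : Function.Injective (rv p) := (rv p).injective
      by_cases h : v.1 = 0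
      · have h2 : v.2 ≠ 0 := fun h2 => hv (Prod.ext h h2)
        have h3 : rv p (v.2 : k) ≠ 0 := by
          intro h3
          apply h2
          have h4 : (v.2 : k) = 0 := hinj (by rw [h3, map_zero])
          exact_mod_cast h4
        positivity
      · have h3 : rv p (v.1 : k) ≠ 0 := by
          intro h3
          apply h
          have h4 : (v.1 : k) = 0 := hinj (by rw [h3, map_zero])
          exact_mod_cast h4
        positivity
    exact ⟨Finset.prod_pos fun p _ => hpos p, hpos⟩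
  · apply Real.le_sqrt_of_sq_le
    unfold Nr nn
    rw [← Finset.prod_pow, ← Finset.prod_mul_distrib]
    apply Finset.prod_le_prod
    · intro p _; positivity
    · intro p _
      rw [sq_abs]; exact h1 p
  · intro u
    have h2 : ∀ p : Pl k, nr r p ((u : 𝓞 k) • v) = |rv p ((u : 𝓞 k) : k)| ^ 2 * nr r p v := by
      intro p
      unfold nr
      have e1 : ((((u : 𝓞 k) • v).1 : 𝓞 k) : k) = ((u : 𝓞 k) : k) * (v.1 : k) := by
        simp [Prod.smul_fst, smul_eq_mul]
      have e2 : ((((u : 𝓞 k) • v).2 : 𝓞 k) : k) = ((u : 𝓞 k) : k) * (v.2 : k) := by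
        simp [Prod.smul_snd, smul_eq_mul]
      rw [e1, e2, map_mul, map_mul, sq_abs]
      ring
    unfold nn
    rw [Finset.prod_congr rfl fun p _ => h2 p, Finset.prod_mul_distrib, Finset.prod_pow]
    have h3 : (∏ p : Pl k, |rv p ((u : 𝓞 k) : k)|) = 1 := hunit u
    rw [h3]; ring
  · intro E p η hη hE
    obtain ⟨E1, E2, E3⟩ := E
    unfold dz1 at hE
    simp only at hE ⊢
    unfold nr
    generalize rv p (v.1 : k) = a
    generalize rv p (v.2 : k) = b
    generalize rv p (w.1 : k) = c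
    generalize rv p (w.2 : k) = d
    have h2 : 2 * η * Real.sqrt ((a ^ 2 / r + r * b ^ 2) * (c ^ 2 / r + r * d ^ 2)) =
        Real.sqrt ((2 * η) ^ 2 * ((a ^ 2 / r + r * b ^ 2) * (c ^ 2 / r + r * d ^ 2))) := by
      rw [Real.sqrt_mul (show (0 : ℝ) ≤ (2 * η) ^ 2 by positivity), Real.sqrt_sq (by positivity)]
    rw [h2]
    apply Real.abs_le_sqrt
    set X := E1 / r with hX
    set Z := r * E3 with hZ
    have e1 : E1 * (b * d) - E2 * (a * d + b * c) + E3 * (a * c) =
        X * (r * b * d) - E2 * (a * d + b * c) + Z * (a * c / r) := by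
      rw [hX, hZ]; field_simp
    rw [e1]
    set x := r * b * d with hx
    set z := a * c / r with hz
    set y := a * d + b * c with hy
    have hxz : x * z = (a * d) * (b * c) := by rw [hx, hz]; field_simp
    have hAB : (a ^ 2 / r + r * b ^ 2) * (c ^ 2 / r + r * d ^ 2) =
        x ^ 2 + z ^ 2 + (a * d) ^ 2 + (b * c) ^ 2 := by
      rw [hx, hz]; field_simp; ring
    have hc : (X * x - E2 * y + Z * z) ^ 2 ≤ (X ^ 2 + E2 ^ 2 + Z ^ 2) * (x ^ 2 + y ^ 2 + z ^ 2) := by
      nlinarith [sq_nonneg (X * y + E2 * x), sq_nonneg (X * z - Z * x), sq_nonneg (E2 * z + Z * y)]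
    have hs : x ^ 2 + y ^ 2 + z ^ 2 ≤
        4 * ((a ^ 2 / r + r * b ^ 2) * (c ^ 2 / r + r * d ^ 2)) := by
      rw [hAB, hy]
      nlinarith [sq_nonneg (x - z), sq_nonneg (a * d - b * c), sq_nonneg (x + z),
        sq_nonneg (a * d + b * c), sq_nonneg x, sq_nonneg z, sq_nonneg (a * d), sq_nonneg (b * c)]
    calc (X * x - E2 * y + Z * z) ^ 2 ≤ (X ^ 2 + E2 ^ 2 + Z ^ 2) * (x ^ 2 + y ^ 2 + z ^ 2) := hc
      _ ≤ η ^ 2 * (4 * ((a ^ 2 / r + r * b ^ 2) * (c ^ 2 / r + r * d ^ 2))) :=
          mul_le_mul hE hs (by positivity) (by positivity)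
      _ = _ := by ring

end Pool.Agent.H52.CM4
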