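import Pool.Agent.H65.CM4.Targets1

/-!
# MP_52e316_nt, board `cm4_modules`: row TAL
-/

set_option autoImplicit false

open MeasureTheory Set Filter NumberField NumberField.InfinitePlace Pool.Agent.H65.CM4
open scoped Real

namespace Pool.Agent.H52.CM4

variable (k : Type) [Field k] [NumberField k] [IsTotallyReal k]

lemma sum_pow_exp (n : ℕ) : ∃ K : ℝ, 0 ≤ K ∧ ∀ s : Finset ℕ,
    ∑ j ∈ s, ((j : ℝ) + 1) ^ n * Real.exp (-(j : ℝ)) ≤ K := by
  have h1 : Summable (fun j : ℕ => ((j : ℝ)) ^ n * Real.exp (-(1 : ℝ) * (j : ℝ))) :=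
    Real.summable_pow_mul_exp_neg_nat_mul n one_pos
  have h2 : Summable (fun j : ℕ => (((j + 1 : ℕ) : ℝ)) ^ n * Real.exp (-(1 : ℝ) * ((j + 1 : ℕ) : ℝ))) :=
    (summable_nat_add_iff 1).2 h1
  have h3 : Summable (fun j : ℕ => ((j : ℝ) + 1) ^ n * Real.exp (-(j : ℝ))) := by
    have h4 := h2.mul_left (Real.exp 1)
    refine h4.congr fun j => ?_
    have h5 : Real.exp (-(j : ℝ)) = Real.exp 1 * Real.exp (-(1 : ℝ) * ((j + 1 : ℕ) : ℝ)) := by
      rw [← Real.exp_add]; congr 1; push_cast; ring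
    rw [h5]; push_cast; ring
  refine ⟨∑' j : ℕ, ((j : ℝ) + 1) ^ n * Real.exp (-(j : ℝ)), tsum_nonneg fun j => by positivity, ?_⟩
  intro s
  exact h3.sum_le_tsum s fun j _ => by positivity

variable {k} in
/-- the one dimensional sum -/
lemma one_dim (hEMB : T_EMB k) (hBXC : T_BXC k) : ∃ C : ℝ, 0 ≤ C ∧
    ∀ (w : ℝ) (ξ : Pl k → ℝ) (F : Finset (𝓞 k)), 0 < w →
      ∑ z ∈ F, Real.exp (-(π / 2 * (w ^ 2 * ∑ v : Pl k, (rv v (z : k) / dk k + ξ v) ^ 2))) ≤
        C * (1 + (1 / w) ^ dg k) := by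
  classical
  obtain ⟨hcard, -, hdk, -, -, -, -, -, -, hNr, -⟩ := hEMB
  obtain ⟨C0, hC0, hbox⟩ := hBXC
  obtain ⟨K, hK, hKs⟩ := sum_pow_exp (dg k)
  have hd1 : (1 : ℝ) ≤ dk k := by exact_mod_cast hdk
  have hd0 : (0 : ℝ) < dk k := by linarith
  refine ⟨C0 * (2 * dk k) ^ dg k * K, by positivity, ?_⟩
  intro w ξ F hw
  set S : 𝓞 k → ℝ := fun z => w ^ 2 * ∑ v : Pl k, (rv v (z : k) / dk k + ξ v) ^ 2 with hS
  have hS0 : ∀ z, 0 ≤ S z := fun z => by
    rw [hS]; exact mul_nonneg (sq_nonneg _) (Finset.sum_nonneg fun v _ => sq_nonneg _)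
  set J : 𝓞 k → ℕ := fun z => ⌊Real.sqrt (S z)⌋₊ with hJ
  have hinner : ∀ j ∈ F.image J, ∑ z ∈ F.filter (fun z => J z = j), Real.exp (-(π / 2 * S z)) ≤
      C0 * (2 * dk k) ^ dg k * (1 + (1 / w) ^ dg k) * (((j : ℝ) + 1) ^ dg k * Real.exp (-(j : ℝ))) := by
    intro j _
    have hj : ∀ z ∈ F.filter (fun z => J z = j), (j : ℝ) ≤ Real.sqrt (S z) ∧
        Real.sqrt (S z) < (j : ℝ) + 1 := by
      intro z hz
      have hz2 := (Finset.mem_filter.1 hz).2
      rw [← hz2]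
      exact ⟨Nat.floor_le (Real.sqrt_nonneg _), Nat.lt_floor_add_one _⟩
    have hterm : ∀ z ∈ F.filter (fun z => J z = j), Real.exp (-(π / 2 * S z)) ≤
        Real.exp (-(j : ℝ)) := by
      intro z hz
      apply Real.exp_le_exp.2
      obtain ⟨h1, -⟩ := hj z hz
      have h2 : (j : ℝ) ^ 2 ≤ S z := by
        have h3 := pow_le_pow_left₀ (Nat.cast_nonneg j) h1 2
        rwa [Real.sq_sqrt (hS0 z)] at h3
      have h4 : (j : ℝ) ≤ (j : ℝ) ^ 2 := by
        rcases Nat.eq_zero_or_pos j with h | h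
        · subst h; simp
        · have : (1 : ℝ) ≤ j := by exact_mod_cast h
          nlinarith
      have h5 : (1 : ℝ) ≤ π / 2 := by have := Real.pi_gt_three; linarith
      nlinarith [hS0 z]
    have hbnd : ∀ z ∈ F.filter (fun z => J z = j), ∀ v : Pl k,
        |rv v (z : k) / dk k + ξ v| ≤ ((j : ℝ) + 1) / w := by
      intro z hz v
      obtain ⟨-, h2⟩ := hj z hz
      have h3 : (w * |rv v (z : k) / dk k + ξ v|) ^ 2 ≤ S z := by
        rw [hS, mul_pow, sq_abs]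
        exact mul_le_mul_of_nonneg_left
          (Finset.single_le_sum (f := fun v => (rv v (z : k) / dk k + ξ v) ^ 2)
            (fun v _ => sq_nonneg _) (Finset.mem_univ v)) (sq_nonneg _)
      have h4 : w * |rv v (z : k) / dk k + ξ v| ≤ Real.sqrt (S z) := Real.le_sqrt_of_sq_le h3
      rw [le_div_iff₀ hw]
      linarith
    have hcardle : ((F.filter (fun z => J z = j)).card : ℝ) ≤
        C0 * (1 + (2 * ((j : ℝ) + 1) * dk k / w) ^ dg k) := by
      have hinj : Function.Injective (fun z : 𝓞 k => (z : k)) := by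
        intro a b hab; have h : (a : k) = (b : k) := hab; exact_mod_cast h
      rw [← Finset.card_image_of_injective _ hinj]
      have hg0 : 0 ≤ 2 * ((j : ℝ) + 1) * dk k / w := by positivity
      have h1 := hbox 1 (fun _ => 2 * ((j : ℝ) + 1) * dk k / w)
        ((F.filter (fun z => J z = j)).image (fun z : 𝓞 k => (z : k))) one_pos (fun _ => hg0) ?_
      · rw [Finset.prod_const, Finset.card_univ, hcard, div_one] at h1
        exact h1
      · intro x hx y hy hxy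
        obtain ⟨z, hz, rfl⟩ := Finset.mem_image.1 hx
        obtain ⟨z', hz', rfl⟩ := Finset.mem_image.1 hy
        have hne : z - z' ≠ 0 := by
          intro h
          apply hxy
          have : z = z' := sub_eq_zero.1 h
          rw [this]
        refine ⟨?_, ?_⟩
        · have h2 := hNr (z - z') hne
          simpa using h2
        · intro v
          have e1 := hbnd z hz v
          have e2 := hbnd z' hz' v
          have e3 : rv v ((z : k) - (z' : k)) =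
              dk k * ((rv v (z : k) / dk k + ξ v) - (rv v (z' : k) / dk k + ξ v)) := by
            rw [map_sub]; field_simp; ring
          rw [e3, abs_mul, abs_of_pos hd0]
          have e4 := abs_sub (rv v (z : k) / dk k + ξ v) (rv v (z' : k) / dk k + ξ v)
          have e5 : |(rv v (z : k) / dk k + ξ v) - (rv v (z' : k) / dk k + ξ v)| ≤
              2 * (((j : ℝ) + 1) / w) := by linarith
          calc (dk k : ℝ) * |(rv v (z : k) / dk k + ξ v) - (rv v (z' : k) / dk k + ξ v)|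
              ≤ dk k * (2 * (((j : ℝ) + 1) / w)) := mul_le_mul_of_nonneg_left e5 hd0.le
            _ = 2 * ((j : ℝ) + 1) * dk k / w := by ring
    have hj1 : (1 : ℝ) ≤ ((j : ℝ) + 1) ^ dg k :=
      one_le_pow₀ (by have : (0 : ℝ) ≤ j := Nat.cast_nonneg j; linarith)
    have hd2 : (1 : ℝ) ≤ (2 * (dk k : ℝ)) ^ dg k := one_le_pow₀ (by linarith)
    have hc2 : C0 * (1 + (2 * ((j : ℝ) + 1) * dk k / w) ^ dg k) ≤
        C0 * (2 * dk k) ^ dg k * (1 + (1 / w) ^ dg k) * ((j : ℝ) + 1) ^ dg k := by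
      have e1 : (2 * ((j : ℝ) + 1) * dk k / w) ^ dg k =
          (2 * dk k) ^ dg k * (1 / w) ^ dg k * ((j : ℝ) + 1) ^ dg k := by
        rw [← mul_pow, ← mul_pow]; congr 1; ring
      have e2 : (1 : ℝ) ≤ (2 * (dk k : ℝ)) ^ dg k * ((j : ℝ) + 1) ^ dg k :=
        one_le_mul_of_one_le_of_one_le hd2 hj1
      have e3 : 1 + (2 * ((j : ℝ) + 1) * dk k / w) ^ dg k ≤
          (2 * dk k) ^ dg k * (1 + (1 / w) ^ dg k) * ((j : ℝ) + 1) ^ dg k := by
        rw [e1]; linarith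
      calc C0 * (1 + (2 * ((j : ℝ) + 1) * dk k / w) ^ dg k) ≤
          C0 * ((2 * dk k) ^ dg k * (1 + (1 / w) ^ dg k) * ((j : ℝ) + 1) ^ dg k) :=
            mul_le_mul_of_nonneg_left e3 (by linarith)
        _ = _ := by ring
    calc ∑ z ∈ F.filter (fun z => J z = j), Real.exp (-(π / 2 * S z))
        ≤ ∑ z ∈ F.filter (fun z => J z = j), Real.exp (-(j : ℝ)) := Finset.sum_le_sum hterm
      _ = (F.filter (fun z => J z = j)).card * Real.exp (-(j : ℝ)) := by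
          rw [Finset.sum_const, nsmul_eq_mul]
      _ ≤ C0 * (2 * dk k) ^ dg k * (1 + (1 / w) ^ dg k) * ((j : ℝ) + 1) ^ dg k *
          Real.exp (-(j : ℝ)) :=
          mul_le_mul_of_nonneg_right (hcardle.trans hc2) (Real.exp_pos _).le
      _ = _ := by ring
  rw [← Finset.sum_fiberwise_of_maps_to (g := J) (t := F.image J)
    (fun z hz => Finset.mem_image_of_mem J hz)]
  calc ∑ j ∈ F.image J, ∑ z ∈ F.filter (fun z => J z = j), Real.exp (-(π / 2 * S z))
      ≤ ∑ j ∈ F.image J, C0 * (2 * dk k) ^ dg k * (1 + (1 / w) ^ dg k) *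
        (((j : ℝ) + 1) ^ dg k * Real.exp (-(j : ℝ))) := Finset.sum_le_sum hinner
    _ = C0 * (2 * dk k) ^ dg k * (1 + (1 / w) ^ dg k) *
        ∑ j ∈ F.image J, (((j : ℝ) + 1) ^ dg k * Real.exp (-(j : ℝ))) := by rw [Finset.mul_sum]
    _ ≤ C0 * (2 * dk k) ^ dg k * (1 + (1 / w) ^ dg k) * K :=
        mul_le_mul_of_nonneg_left (hKs _) (by positivity)
    _ = _ := by ring

variable {k} in
/-- the sum over the forms -/
lemma three_dim (hEMB : T_EMB k) (hBXC : T_BXC k) : ∃ C : ℝ, 0 ≤ C ∧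
    ∀ (W r : ℝ) (ξ : RF k) (F : Finset (QF k)), 1 ≤ W → 1 ≤ r →
      ∑ Z ∈ F, Real.exp (-(π / 2 * W ^ 2 * dz r (dp Z + ξ))) ≤ C * r ^ dg k := by
  classical
  obtain ⟨C1, hC1, h1⟩ := one_dim hEMB hBXC
  refine ⟨C1 ^ 3 * 8, by positivity, ?_⟩
  intro W r ξ F hW hr
  have hW0 : 0 < W := by linarith
  have hr0 : 0 < r := by linarith
  set f1 : 𝓞 k → ℝ := fun z =>
    Real.exp (-(π / 2 * ((W / r) ^ 2 * ∑ v : Pl k, (rv v (z : k) / dk k + (ξ v).1) ^ 2))) with hf1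
  set f2 : 𝓞 k → ℝ := fun z =>
    Real.exp (-(π / 2 * (W ^ 2 * ∑ v : Pl k, (rv v (z : k) / dk k + (ξ v).2.1) ^ 2))) with hf2
  set f3 : 𝓞 k → ℝ := fun z =>
    Real.exp (-(π / 2 * ((W * r) ^ 2 * ∑ v : Pl k, (rv v (z : k) / dk k + (ξ v).2.2) ^ 2))) with hf3
  have hsplit : ∀ Z : QF k, Real.exp (-(π / 2 * W ^ 2 * dz r (dp Z + ξ))) =
      f1 Z.1 * (f2 Z.2.1 * f3 Z.2.2) := by
    intro Z
    rw [hf1, hf2, hf3]
    simp only
    rw [← Real.exp_add, ← Real.exp_add]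
    congr 1
    have e : dz r (dp Z + ξ) =
        (1 / r ^ 2) * ∑ v : Pl k, (rv v (Z.1 : k) / dk k + (ξ v).1) ^ 2 +
        ∑ v : Pl k, (rv v (Z.2.1 : k) / dk k + (ξ v).2.1) ^ 2 +
        r ^ 2 * ∑ v : Pl k, (rv v (Z.2.2 : k) / dk k + (ξ v).2.2) ^ 2 := by
      unfold dz
      rw [Finset.mul_sum, Finset.mul_sum, ← Finset.sum_add_distrib, ← Finset.sum_add_distrib]
      refine Finset.sum_congr rfl fun v _ => ?_
      simp only [dz1, dp, rl, Pi.add_apply, Prod.smul_mk, Prod.fst_add, Prod.snd_add, smul_eq_mul]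
      ring
    rw [e, div_pow, mul_pow]
    ring
  set A := F.image (fun Z => Z.1) with hA
  set B := F.image (fun Z => Z.2.1) with hB
  set D := F.image (fun Z => Z.2.2) with hD
  have hsub : F ⊆ A ×ˢ (B ×ˢ D) := by
    intro Z hZ
    rw [Finset.mem_product, Finset.mem_product]
    exact ⟨Finset.mem_image_of_mem _ hZ, Finset.mem_image_of_mem _ hZ, Finset.mem_image_of_mem _ hZ⟩
  have g1 := h1 (W / r) (fun v => (ξ v).1) A (by positivity)
  have g2 := h1 W (fun v => (ξ v).2.1) B hW0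
  have g3 := h1 (W * r) (fun v => (ξ v).2.2) D (by positivity)
  have hrn : (1 : ℝ) ≤ r ^ dg k := one_le_pow₀ hr
  have b1 : 1 + (1 / (W / r)) ^ dg k ≤ 2 * r ^ dg k := by
    have e1 : 1 / (W / r) ≤ r := by
      rw [one_div_div, div_le_iff₀ hW0]; nlinarith
    have e2 : (1 / (W / r)) ^ dg k ≤ r ^ dg k := pow_le_pow_left₀ (by positivity) e1 _
    linarith
  have b2 : 1 + (1 / W) ^ dg k ≤ 2 := by
    have e1 : 1 / W ≤ 1 := by rw [div_le_one hW0]; exact hW
    have e2 : (1 / W) ^ dg k ≤ 1 := pow_le_one₀ (by positivity) e1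
    linarith
  have b3 : 1 + (1 / (W * r)) ^ dg k ≤ 2 := by
    have e0 : 1 ≤ W * r := one_le_mul_of_one_le_of_one_le hW hr
    have e1 : 1 / (W * r) ≤ 1 := by rw [div_le_one (by positivity)]; exact e0
    have e2 : (1 / (W * r)) ^ dg k ≤ 1 := pow_le_one₀ (by positivity) e1
    linarith
  have c1 : ∑ z ∈ A, f1 z ≤ C1 * (2 * r ^ dg k) := g1.trans (mul_le_mul_of_nonneg_left b1 hC1)
  have c2 : ∑ z ∈ B, f2 z ≤ C1 * 2 := g2.trans (mul_le_mul_of_nonneg_left b2 hC1)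
  have c3 : ∑ z ∈ D, f3 z ≤ C1 * 2 := g3.trans (mul_le_mul_of_nonneg_left b3 hC1)
  have p1 : ∀ z, 0 ≤ f1 z := fun z => (Real.exp_pos _).le
  have p2 : ∀ z, 0 ≤ f2 z := fun z => (Real.exp_pos _).le
  have p3 : ∀ z, 0 ≤ f3 z := fun z => (Real.exp_pos _).le
  calc ∑ Z ∈ F, Real.exp (-(π / 2 * W ^ 2 * dz r (dp Z + ξ)))
      = ∑ Z ∈ F, f1 Z.1 * (f2 Z.2.1 * f3 Z.2.2) := Finset.sum_congr rfl fun Z _ => hsplit Z
    _ ≤ ∑ Z ∈ A ×ˢ (B ×ˢ D), f1 Z.1 * (f2 Z.2.1 * f3 Z.2.2) :=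
        Finset.sum_le_sum_of_subset_of_nonneg hsub
          fun Z _ _ => mul_nonneg (p1 _) (mul_nonneg (p2 _) (p3 _))
    _ = (∑ z ∈ A, f1 z) * ((∑ z ∈ B, f2 z) * ∑ z ∈ D, f3 z) := by
        rw [Finset.sum_product, Finset.sum_mul]
        refine Finset.sum_congr rfl fun z _ => ?_
        rw [Finset.sum_product, Finset.sum_mul, Finset.mul_sum]
        refine Finset.sum_congr rfl fun z' _ => ?_
        rw [Finset.mul_sum, Finset.mul_sum]
    _ ≤ (C1 * (2 * r ^ dg k)) * ((C1 * 2) * (C1 * 2)) :=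
        mul_le_mul c1 (mul_le_mul c2 c3 (Finset.sum_nonneg fun z _ => p3 z) (by positivity))
          (mul_nonneg (Finset.sum_nonneg fun z _ => p2 z) (Finset.sum_nonneg fun z _ => p3 z))
          (by positivity)
    _ = C1 ^ 3 * 8 * r ^ dg k := by ring

theorem pf_TAL (hEMB : T_EMB k) (hLOW : T_LOW k) (hBXC : T_BXC k) (hPN3 : T_PN3 k) : T_TAL k := by
  classical
  obtain ⟨C, hC, h3⟩ := three_dim hEMB hBXC
  refine ⟨C, hC, ?_⟩
  intro W r η ξ hW hr hη
  have hW0 : 0 < W := by linarith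
  have hr0 : 0 < r := by linarith
  obtain ⟨-, s1, -⟩ := hPN3 W r ξ ξ hW0 hr0
  have s2 : Summable (fun Z : QF k => Real.exp (-(π / 2 * W ^ 2 * dz r (dp Z + ξ)))) :=
    summable_of_sum_le (fun Z => (Real.exp_pos _).le) fun F => h3 W r ξ F hW hr
  have hbd : ∑' Z : QF k, Real.exp (-(π / 2 * W ^ 2 * dz r (dp Z + ξ))) ≤ C * r ^ dg k :=
    s2.tsum_le_of_sum_le fun F => h3 W r ξ F hW hr
  have hfin : {Z : QF k | dz r (dp Z + ξ) ≤ η ^ 2}.Finite := by
    have hev := s1.tendsto_cofinite_zero.eventually_lt_const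
      (Real.exp_pos (-(π * W ^ 2 * η ^ 2)))
    have hfs : {Z : QF k | ¬ Real.exp (-(π * W ^ 2 * dz r (dp Z + ξ))) <
        Real.exp (-(π * W ^ 2 * η ^ 2))}.Finite := hev
    refine hfs.subset fun Z hZ => ?_
    simp only [Set.mem_ofPred_eq] at hZ ⊢
    rw [Real.exp_lt_exp, not_lt]
    have h1 : 0 ≤ π * W ^ 2 := by positivity
    have h2 := mul_le_mul_of_nonneg_left hZ h1
    linarith
  refine ⟨hfin, ?_⟩
  have hpt : ∀ Z : QF k, Real.exp (-(π * W ^ 2 * dz r (dp Z + ξ))) ≤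
      (if Z ∈ hfin.toFinset then (1 : ℝ) else 0) +
        Real.exp (-(π * W ^ 2 * η ^ 2 / 2)) * Real.exp (-(π / 2 * W ^ 2 * dz r (dp Z + ξ))) := by
    intro Z
    have hdz0 : 0 ≤ dz r (dp Z + ξ) := by
      unfold dz dz1
      exact Finset.sum_nonneg fun v _ => by positivity
    by_cases hZ : dz r (dp Z + ξ) ≤ η ^ 2
    · rw [if_pos (by rw [Set.Finite.mem_toFinset]; exact hZ)]
      have h1 : Real.exp (-(π * W ^ 2 * dz r (dp Z + ξ))) ≤ 1 := by
        apply Real.exp_le_one_iff.2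
        have : 0 ≤ π * W ^ 2 * dz r (dp Z + ξ) := by positivity
        linarith
      have h2 : 0 ≤ Real.exp (-(π * W ^ 2 * η ^ 2 / 2)) *
          Real.exp (-(π / 2 * W ^ 2 * dz r (dp Z + ξ))) := by positivity
      linarith
    · rw [if_neg (by rw [Set.Finite.mem_toFinset]; exact hZ), zero_add, ← Real.exp_add]
      apply Real.exp_le_exp.2
      push Not at hZ
      have h1 : 0 ≤ π * W ^ 2 := by positivity
      have h2 := mul_le_mul_of_nonneg_left hZ.le h1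
      linarith
  have s3 : Summable (fun Z : QF k => (if Z ∈ hfin.toFinset then (1 : ℝ) else 0)) :=
    summable_of_ne_finset_zero (s := hfin.toFinset) (fun Z hZ => if_neg hZ)
  have hsum : ∑' Z : QF k, (if Z ∈ hfin.toFinset then (1 : ℝ) else 0) = nz r η ξ := by
    rw [tsum_eq_sum (s := hfin.toFinset) (fun Z hZ => if_neg hZ)]
    rw [Finset.sum_congr rfl (fun Z hZ => if_pos hZ), Finset.sum_const, nsmul_eq_mul, mul_one]
    unfold nz
    have h1 : Nat.card {Z : QF k // dz r (dp Z + ξ) ≤ η ^ 2} =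
        {Z : QF k | dz r (dp Z + ξ) ≤ η ^ 2}.ncard := rfl
    rw [h1, Set.ncard_eq_toFinset_card _ hfin]
  have hfinal : ps W r ξ ≤ nz r η ξ +
      Real.exp (-(π * W ^ 2 * η ^ 2 / 2)) *
        ∑' Z : QF k, Real.exp (-(π / 2 * W ^ 2 * dz r (dp Z + ξ))) := by
    rw [← hsum, ← tsum_mul_left, ← s3.tsum_add (s2.mul_left _)]
    exact s1.tsum_le_tsum hpt (s3.add (s2.mul_left _))
  refine hfinal.trans ?_
  have h5 := mul_le_mul_of_nonneg_left hbd (Real.exp_pos (-(π * W ^ 2 * η ^ 2 / 2))).le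
  linarith

end Pool.Agent.H52.CM4
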